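import Pool.Agent.Run7.h871.CS.Base
import Pool.Agent.Run7.h213.T.Low

/-!
A chain of blocks of size `m`, each with a large volume, joined by circuits and a long crossing.
-/

set_option autoImplicit false
set_option maxHeartbeats 1000000

namespace CS213

open Finset H974 H31K Pool.Agent.H160R2.CV Pool.Agent.H160R2.CV.Quad Pool.Agent.W424.NC T213 CS871
open H362P

theorem pr_LA_ge {p : ℝ} (h0 : 0 ≤ p) (h1 : p ≤ 1) {S : Finset Edg} {x : Vtx} {n : ℕ}
    (hS : bo x n ⊆ S) : arm p n ≤ Pr (fun _ => p) S (LA x n) := by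
  rw [← pr_shift_arm p (x1 := x.1) (x2 := x.2) hS]
  apply Pr_mono (okq h0 h1)
  intro F _ h
  obtain ⟨v, hv, hr⟩ := arm_at h
  refine LA_of_reach (u := v) ?_ (hr.mono Set.inter_subset_left)
  unfold nv
  simp only [Prod.fst_sub, Prod.snd_sub]
  omega

theorem LA_anti {x : Vtx} {n n' : ℕ} (h : n' ≤ n) {F : Finset Edg} (hF : LA x n F) : LA x n' F :=
  LA_of_far h (far_of_LA hF)

/-- the number of vertices of `D` with an arm of length `n` -/
noncomputable def XL (D : Finset Vtx) (n : ℕ) (F : Finset Edg) : ℝ := ∑ x ∈ D, ind (LA x n F)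

theorem XL_nonneg (D : Finset Vtx) (n : ℕ) (F : Finset Edg) : 0 ≤ XL D n F :=
  Finset.sum_nonneg fun _ _ => ind_nonneg _

theorem XL_mono (D : Finset Vtx) (n : ℕ) {F G : Finset Edg} (h : F ⊆ G) : XL D n F ≤ XL D n G :=
  Finset.sum_le_sum fun x _ => ind_mono (LA_inc x n F G h)

theorem XL_card (D : Finset Vtx) (n : ℕ) (F : Finset Edg) : ∃ T : Finset Vtx, T ⊆ D ∧
    XL D n F = T.card ∧ ∀ u ∈ T, LA u n F := by
  classical
  refine ⟨D.filter fun x => LA x n F, Finset.filter_subset _ _, ?_, fun u hu =>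
    (Finset.mem_filter.mp hu).2⟩
  unfold XL
  rw [Finset.card_filter]
  push_cast
  apply Finset.sum_congr rfl
  intro x _
  by_cases h : LA x n F
  · rw [ind_of h, if_pos h]
  · rw [ind_not_of h, if_neg h]

theorem Ex_XL (p : Edg → ℝ) (D : Finset Vtx) (n : ℕ) (S : Finset Edg) :
    Ex p S (XL D n) = ∑ x ∈ D, Pr p S (LA x n) := by
  unfold XL
  rw [Ex_sum]
  rfl

theorem Ex_XL2 (p : Edg → ℝ) (D : Finset Vtx) (n : ℕ) (S : Finset Edg) :
    Ex p S (fun F => XL D n F * XL D n F) = ∑ x ∈ D, ∑ y ∈ D,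
      Pr p S (fun F => LA x n F ∧ LA y n F) := by
  unfold XL
  simp only [Finset.sum_mul_sum]
  rw [Ex_sum]
  apply Finset.sum_congr rfl
  intro x _
  rw [Ex_sum]
  apply Finset.sum_congr rfl
  intro y _
  unfold Pr
  apply Ex_congr
  intro F _
  rw [ind_and]

/-- Paley-Zygmund -/
theorem pz {p : Edg → ℝ} (ok : Ok p) {S : Finset Edg} {X : Finset Edg → ℝ} (hX : ∀ F, 0 ≤ X F)
    {a b : ℝ} (ha : 0 < a) (hb : 0 < b) (h1 : a ≤ Ex p S X)
    (h2 : Ex p S (fun F => X F * X F) ≤ b) :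
    a ^ 2 / (4 * b) ≤ Pr p S (fun F => a / 2 ≤ X F) := by
  obtain ⟨l, hl⟩ : ∃ l : ℝ, l = 2 * b / a := ⟨_, rfl⟩
  have hl0 : 0 < l := by rw [hl]; positivity
  have hpt : Ex p S X ≤ Ex p S (fun F => a / 2 + ((1 / (2 * l)) * (X F * X F) +
      (l / 2) * ind (a / 2 ≤ X F))) := by
    apply Ex_mono ok
    intro F _
    have hX0 := hX F
    by_cases hG : a / 2 ≤ X F
    · rw [ind_of hG]
      have h5 : X F ≤ 1 / (2 * l) * (X F * X F) + l / 2 * 1 := by
        have : 0 ≤ (X F - l) ^ 2 / (2 * l) := by positivity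
        have e : (X F - l) ^ 2 / (2 * l) =
            1 / (2 * l) * (X F * X F) + l / 2 * 1 - X F := by
          field_simp
          ring
        linarith
      linarith
    · rw [ind_not_of hG]
      have h6 : 0 ≤ 1 / (2 * l) * (X F * X F) := by positivity
      push Not at hG
      linarith
  rw [Ex_add, Ex_add, Ex_const, Ex_mul_left, Ex_mul_left] at hpt
  have h3 : Ex p S (fun F => ind (a / 2 ≤ X F)) = Pr p S (fun F => a / 2 ≤ X F) := rfl
  rw [h3] at hpt
  have h4 : 1 / (2 * l) * Ex p S (fun F => X F * X F) ≤ 1 / (2 * l) * b :=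
    mul_le_mul_of_nonneg_left h2 (by positivity)
  have e1 : 1 / (2 * l) * b = a / 4 := by
    rw [hl]; field_simp; ring
  have h5 : a / 4 ≤ b / a * Pr p S (fun F => a / 2 ≤ X F) := by
    have e2 : l / 2 = b / a := by rw [hl]; ring
    rw [e2] at hpt
    linarith
  rw [div_le_iff₀ (by positivity)]
  have h6 : a * (a / 4) ≤ a * (b / a * Pr p S (fun F => a / 2 ≤ X F)) :=
    mul_le_mul_of_nonneg_left h5 ha.le
  have e3 : a * (b / a * Pr p S (fun F => a / 2 ≤ X F)) =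
      b * Pr p S (fun F => a / 2 ≤ X F) := by field_simp
  rw [e3] at h6
  nlinarith

/-- the block of radius `m` around `c` -/
noncomputable def Db (c : Vtx) (m : ℕ) : Finset Vtx :=
  Finset.Icc (c.1 - m) (c.1 + m) ×ˢ Finset.Icc (c.2 - m) (c.2 + m)

theorem mem_Db {c x : Vtx} {m : ℕ} : x ∈ Db c m ↔ nv (x - c) ≤ m := by
  unfold Db nv
  rw [Finset.mem_product, Finset.mem_Icc, Finset.mem_Icc]
  simp only [Prod.fst_sub, Prod.snd_sub]
  omega

theorem card_Db (c : Vtx) (m : ℕ) : (Db c m).card = (2 * m + 1) ^ 2 := by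
  unfold Db
  rw [Finset.card_product, Int.card_Icc, Int.card_Icc]
  have e1 : (c.1 + m + 1 - (c.1 - (m : ℤ))).toNat = 2 * m + 1 := by omega
  have e2 : (c.2 + m + 1 - (c.2 - (m : ℤ))).toNat = 2 * m + 1 := by omega
  rw [e1, e2]
  ring

theorem bo_sub_bo {c x : Vtx} {m n n' : ℕ} (hx : nv (x - c) ≤ m) (h : m + n ≤ n') :
    bo x n ⊆ bo c n' := by
  unfold nv at hx
  simp only [Prod.fst_sub, Prod.snd_sub] at hx
  unfold bo
  apply RE_subset <;> omega

/-- the volume of one block -/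
theorem pr_vol (hSECU : S_SECU) {A a : ℝ} (hA : 1 ≤ A) (ha : 0 < a) : ∃ θ : ℝ, 0 < θ ∧
    ∀ (p : ℝ) (m : ℕ) (c : Vtx) (S : Finset Edg), 0 ≤ p → p ≤ 1 → 1 ≤ m → ArmUp p A m →
      a * ((3 * m : ℕ) : ℝ) ^ (-(5/48) : ℝ) ≤ arm p (3 * m) → bo c (4 * m) ⊆ S →
      θ ≤ Pr (fun _ => p) S (fun F => a / 6 * (m : ℝ) ^ (91/48 : ℝ) ≤ XL (Db c m) (3 * m) F) := by
  obtain ⟨C, hC, hU⟩ := hSECU A hA
  refine ⟨a ^ 2 / (3600 * C), by positivity, ?_⟩
  intro p m c S h0 h1 hm hAU harm hS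
  have hm0 : (0:ℝ) < m := by exact_mod_cast hm
  have hm1 : (1:ℝ) ≤ m := by exact_mod_cast hm
  obtain ⟨M, hM⟩ : ∃ M : ℝ, M = (m : ℝ) ^ (91/48 : ℝ) := ⟨_, rfl⟩
  have hM0 : 0 < M := by rw [hM]; positivity
  have ok := okq h0 h1
  have e0 : (m:ℝ) ^ 2 * (m:ℝ) ^ (-(5/48) : ℝ) = M := by
    rw [hM, ← Real.rpow_natCast, ← Real.rpow_add hm0]
    norm_num
  have h3 : (1:ℝ) / 3 ≤ (3:ℝ) ^ (-(5/48) : ℝ) := by
    have : (3:ℝ) ^ (-1 : ℝ) ≤ (3:ℝ) ^ (-(5/48) : ℝ) :=
      Real.rpow_le_rpow_of_exponent_le (by norm_num) (by norm_num)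
    rw [Real.rpow_neg_one] at this
    linarith
  have h4 : a / 3 * (m:ℝ) ^ (-(5/48) : ℝ) ≤ arm p (3 * m) := by
    refine le_trans ?_ harm
    push_cast
    rw [Real.mul_rpow (by norm_num) hm0.le]
    have h5 : 0 ≤ a * (m:ℝ) ^ (-(5/48) : ℝ) := by positivity
    have h6 := mul_le_mul_of_nonneg_right h3 h5
    linarith
  have f1 : a / 3 * M ≤ Ex (fun _ => p) S (XL (Db c m) (3 * m)) := by
    rw [Ex_XL]
    calc a / 3 * M = (m:ℝ) ^ 2 * (a / 3 * (m:ℝ) ^ (-(5/48) : ℝ)) := by rw [← e0]; ring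
      _ ≤ (m:ℝ) ^ 2 * arm p (3 * m) := mul_le_mul_of_nonneg_left h4 (by positivity)
      _ ≤ ((Db c m).card : ℝ) * arm p (3 * m) := by
          apply mul_le_mul_of_nonneg_right _ (arm_nonneg h0 h1 _)
          rw [card_Db]
          push_cast
          nlinarith
      _ = ∑ x ∈ Db c m, arm p (3 * m) := by rw [Finset.sum_const, nsmul_eq_mul]
      _ ≤ _ := by
          apply Finset.sum_le_sum
          intro x hx
          exact pr_LA_ge h0 h1 ((bo_sub_bo (mem_Db.mp hx) (by omega)).trans hS)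
  have f2 : Ex (fun _ => p) S (fun F => XL (Db c m) (3 * m) F * XL (Db c m) (3 * m) F) ≤
      100 * C * M ^ 2 := by
    rw [Ex_XL2]
    have hc : (Db c m).card ≤ 9 * m ^ 2 := by
      rw [card_Db]
      nlinarith
    have h5 := hU p m 9 (Db c m) S h0 h1 hm hAU hc
    rw [← hM] at h5
    have h6 : ∑ x ∈ Db c m, ∑ y ∈ Db c m, Pr (fun _ => p) S
        (fun F => LA x (3 * m) F ∧ LA y (3 * m) F) ≤
        ∑ x ∈ Db c m, ∑ y ∈ Db c m, Pr (fun _ => p) S (fun F => LA x m F ∧ LA y m F) := by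
      apply Finset.sum_le_sum
      intro x _
      apply Finset.sum_le_sum
      intro y _
      apply Pr_mono ok
      intro F _ h
      exact ⟨LA_anti (by omega) h.1, LA_anti (by omega) h.2⟩
    push_cast at h5
    have e : C * (M * (9 + 1)) ^ 2 = 100 * C * M ^ 2 := by ring
    linarith
  have f3 := pz ok (XL_nonneg (Db c m) (3 * m)) (a := a / 3 * M) (b := 100 * C * M ^ 2)
    (by positivity) (by positivity) f1 f2
  have e1 : (a / 3 * M) ^ 2 / (4 * (100 * C * M ^ 2)) = a ^ 2 / (3600 * C) := by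
    field_simp
    ring
  have e2 : a / 3 * M / 2 = a / 6 * M := by ring
  rw [e1, e2] at f3
  rw [← hM]
  exact f3

/-- circuits around `c` -/
theorem pr_CA_ge {p κ : ℝ} {m : ℕ} (hW : H12S.Win p κ (4 * m)) (hm : 1 ≤ m) {c : Vtx}
    {S : Finset Edg} (hS : bo c (2 * m) ⊆ S) :
    κ ^ 4 ≤ Pr (fun _ => p) S (CA c m (2 * m)) := by
  have h0 : 0 ≤ p := by linarith [hW.lo]
  have h1 : p ≤ 1 := by linarith [hW.hi]
  have hk := hW.kpos
  have hc0 : κ ≤ hh p (2 * ((2 * m : ℕ) : ℤ)) (((2 * m : ℕ) : ℤ) - m) := by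
    refine (hW.pri m hm (by omega)).trans ?_
    apply hh_mono h0 h1 <;> (push_cast; omega)
  have e : Pr (fun _ => p) S (CA c m (2 * m)) =
      Pr (fun _ => p) ((trl (-c.1) (-c.2)).mp S) (Circ m ((2 * m : ℕ) : ℤ)) :=
    (LSym.pr (trl (-c.1) (-c.2)) p S _).symm
  rw [e]
  refine le_trans ?_ (pr_Circ h0 h1 (R1 := m) (R2 := ((2 * m : ℕ) : ℤ)) (by positivity)
    (by push_cast; omega) ?_)
  · exact pow_le_pow_left₀ hk.le hc0 _
  · have h3 := LSym.mp_mono (trl (-c.1) (-c.2)) hS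
    unfold bo at h3
    rw [trl_RE] at h3
    refine Finset.Subset.trans ?_ h3
    apply RE_subset <;> omega

/-- the centres of the blocks -/
def ce (m i : ℕ) : Vtx := (8 * (m : ℤ) * i, 0)

/-- the event of one block -/
def Blo (m : ℕ) (t : ℝ) (i : ℕ) (F : Finset Edg) : Prop :=
  CA (ce m i) m (2 * m) F ∧ t ≤ XL (Db (ce m i) m) (3 * m) F

theorem Blo_mono {m : ℕ} {t : ℝ} {i : ℕ} {F G : Finset Edg} (h : F ⊆ G) (hF : Blo m t i F) :
    Blo m t i G :=
  ⟨CA_incr G _ _ _ F G h (Finset.Subset.refl _) hF.1, hF.2.trans (XL_mono _ _ h)⟩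

theorem chain_det {m k K : ℕ} (hm : 1 ≤ m) (hk : 1 ≤ k) (hK : 8 * m * k + m ≤ K) {t : ℝ}
    {F : Finset Edg} (h1 : ∀ i < k, Blo m t i F)
    (h2 : LRc (-(2 * (m : ℤ))) (8 * (m : ℤ) * k) (-(m : ℤ)) m F) (h3 : LA (0, 0) (3 * m) F) :
    (k : ℝ) * t ≤ ((cF K F).card : ℝ) := by
  classical
  obtain ⟨y, y', hy, hy', hp⟩ := h2
  have hp' : Reach ((↑F : Set Edg) ∩ ↑(RE (-(2 * (m : ℤ))) (8 * (m : ℤ) * k) (-(m:ℤ)) m))
      (-(2 * (m : ℤ)), y) (8 * (m : ℤ) * k, y') :=
    hp.mono (Set.inter_subset_inter_right _ (by exact_mod_cast LRE_subset_RE))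
  -- every vertex with an arm in a block is connected to the left end
  have key : ∀ i < k, ∀ x : Vtx, nv (x - ce m i) ≤ m → LA x (3 * m) F →
      Reach (↑F : Set Edg) x (-(2 * (m : ℤ)), y) := by
    intro i hi x hx hLA
    obtain ⟨z, hz⟩ := CA_meet (by omega) (h1 i hi).1
    have hik : (8 * (m : ℤ) * i) + 8 * m ≤ 8 * (m : ℤ) * k := by
      have h4 : ((i : ℤ) + 1) ≤ k := by exact_mod_cast hi
      have h5 : 8 * (m : ℤ) * (i + 1) ≤ 8 * (m : ℤ) * k :=
        mul_le_mul_of_nonneg_left h4 (by positivity)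
      linarith
    have hi0 : (0:ℤ) ≤ 8 * (m : ℤ) * i := by positivity
    have g1 : Reach (↑F : Set Edg) (-(2 * (m : ℤ)), y) z := by
      refine link_LR hm (x1 := 8 * (m : ℤ) * i) (x2 := 0) (z := z) ?_
        (A := -(2 * (m : ℤ))) (B := 8 * (m : ℤ) * k) (by omega) (by omega)
        (v := (8 * (m : ℤ) * k, y')) ?_ (by simp only; omega) le_rfl
      · intro u v hu hv hr
        refine hz u v ?_ ?_ (hr.mono Set.inter_subset_left)
        · unfold inR at hu
          unfold nv ce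
          simp only [Prod.fst_sub, Prod.snd_sub]
          omega
        · unfold nv ce
          simp only [Prod.fst_sub, Prod.snd_sub]
          omega
      · rw [zero_sub, zero_add]
        exact hp'
    obtain ⟨w, hw, hr⟩ := far_of_LA hLA
    have g2 : Reach (↑F : Set Edg) x z := by
      refine hz x w hx ?_ hr
      unfold nv at hx hw ⊢
      simp only [Prod.fst_sub, Prod.snd_sub] at hx hw ⊢
      omega
    exact g2.trans g1.symm
  have g0 : Reach (↑F : Set Edg) (0, 0) (-(2 * (m : ℤ)), y) := by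
    refine key 0 (by omega) (0, 0) ?_ h3
    unfold nv ce
    simp
  choose T hT1 hT2 hT3 using fun i => XL_card (Db (ce m i) m) (3 * m) F
  have hdis : ∀ i ∈ range k, ∀ j ∈ range k, i ≠ j → Disjoint (T i) (T j) := by
    intro i _ j _ hij
    rw [Finset.disjoint_left]
    intro x hx hx'
    have h4 := mem_Db.mp (hT1 i hx)
    have h5 := mem_Db.mp (hT1 j hx')
    unfold nv ce at h4 h5
    simp only [Prod.fst_sub, Prod.snd_sub] at h4 h5
    have h6 : (x.1 - 8 * (m : ℤ) * i).natAbs ≤ m := by omega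
    have h7 : (x.1 - 8 * (m : ℤ) * j).natAbs ≤ m := by omega
    have h8 : |8 * (m : ℤ) * i - 8 * (m : ℤ) * j| ≤ 2 * m := by
      rw [abs_le]; omega
    have e : 8 * (m : ℤ) * i - 8 * (m : ℤ) * j = 8 * (m : ℤ) * ((i : ℤ) - j) := by ring
    rw [e, abs_mul] at h8
    have h9 : (1 : ℤ) ≤ |(i : ℤ) - j| := Int.one_le_abs (by
      intro h; apply hij; omega)
    have h10 : |8 * (m : ℤ)| = 8 * m := abs_of_nonneg (by positivity)
    rw [h10] at h8
    nlinarith
  have hsub : (range k).biUnion T ⊆ cF K F := by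
    intro x hx
    rw [Finset.mem_biUnion] at hx
    obtain ⟨i, hi, hx⟩ := hx
    rw [Finset.mem_range] at hi
    have h4 := mem_Db.mp (hT1 i hx)
    have h5 := key i hi x h4 (hT3 i x hx)
    unfold cF
    rw [Finset.mem_filter]
    refine ⟨?_, g0.trans h5.symm⟩
    rw [VolAux.mem_bx]
    have h6 : 8 * m * i ≤ 8 * m * k := Nat.mul_le_mul_left _ hi.le
    unfold nv ce at h4
    simp only [Prod.fst_sub, Prod.snd_sub] at h4
    unfold nv
    have h7 : ((8 * m * i : ℕ) : ℤ) = 8 * (m : ℤ) * i := by push_cast; ring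
    rw [← h7] at h4
    omega
  have hc := Finset.card_le_card hsub
  rw [Finset.card_biUnion hdis] at hc
  have h4 : (k : ℝ) * t ≤ ∑ i ∈ range k, ((T i).card : ℝ) := by
    calc (k : ℝ) * t = ∑ i ∈ range k, t := by
          rw [Finset.sum_const, nsmul_eq_mul, Finset.card_range]
      _ ≤ _ := by
          apply Finset.sum_le_sum
          intro i hi
          rw [← hT2 i]
          exact (h1 i (Finset.mem_range.mp hi)).2
  refine h4.trans ?_
  exact_mod_cast hc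

/-- the probability of the events of the blocks -/
theorem pr_blocks {p : ℝ} (h0 : 0 ≤ p) (h1 : p ≤ 1) {S : Finset Edg} {m k : ℕ} {t d e : ℝ}
    (hd : 0 ≤ d) (he : 0 ≤ e)
    (g1 : ∀ i < k, d ≤ Pr (fun _ => p) S (CA (ce m i) m (2 * m)))
    (g2 : ∀ i < k, e ≤ Pr (fun _ => p) S (fun F => t ≤ XL (Db (ce m i) m) (3 * m) F)) :
    ∀ j ≤ k, (d * e) ^ j ≤ Pr (fun _ => p) S (fun F => ∀ i < j, Blo m t i F) := by
  have ok := okq h0 h1
  intro j
  induction j with
  | zero =>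
    intro _
    rw [pow_zero]
    have : Pr (fun _ => p) S (fun F => ∀ i < 0, Blo m t i F) =
        Ex (fun _ => p) S (fun _ => (1:ℝ)) := by
      unfold Pr
      apply Ex_congr
      intro F _
      exact ind_of (fun i hi => absurd hi (Nat.not_lt_zero i))
    rw [this, Ex_const]
  | succ j ih =>
    intro hj
    have ih' := ih (by omega)
    have h2 := harris2 ok (S := S) (CA_incr S (ce m j) m (2 * m))
      (B := fun F => t ≤ XL (Db (ce m j) m) (3 * m) F)
      (fun F G h _ hF => hF.trans (XL_mono _ _ h)) hd he (g1 j (by omega)) (g2 j (by omega))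
    have h3 := harris2 ok (S := S) (A := fun F => ∀ i < j, Blo m t i F)
      (B := fun F => Blo m t j F)
      (fun F G h _ hF i hi => Blo_mono h (hF i hi)) (fun F G h _ hF => Blo_mono h hF)
      (by positivity) (by positivity) ih' h2
    rw [pow_succ]
    refine h3.trans (Pr_mono ok ?_)
    intro F _ h i hi
    rcases Nat.lt_or_ge i j with h4 | h4
    · exact h.1 i h4
    · have : i = j := by omega
      rw [this]; exact h.2

theorem chain (hSECU : S_SECU) : S_CHAIN := by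
  intro A a κ hA ha hκ
  obtain ⟨θ, hθ, hV⟩ := pr_vol hSECU hA ha
  obtain ⟨L, hL⟩ : ∃ L : ℝ, L = Real.log (1 / κ) := ⟨_, rfl⟩
  obtain ⟨L', hL'⟩ : ∃ L' : ℝ, L' = Real.log (κ ^ 4 * θ) := ⟨_, rfl⟩
  have hc1 : 0 < min (a * κ / 3) (a / 6) := lt_min (by positivity) (by positivity)
  refine ⟨min (a * κ / 3) (a / 6), 20 * |L| + |L'| + 1, hc1, by positivity, ?_⟩
  intro p m k hm hk hW hAU harm
  have h0 : 0 ≤ p := by linarith [hW.lo]
  have h1 : p ≤ 1 := by linarith [hW.hi]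
  have ok := okq h0 h1
  have hm0 : (0:ℝ) < m := by exact_mod_cast hm
  have hk0 : (1:ℝ) ≤ k := by exact_mod_cast hk
  have harm3 := harm (3 * m) (by omega) (by omega)
  refine ⟨8 * m * k + 4 * m, ?_⟩
  obtain ⟨S, hS⟩ : ∃ S : Finset Edg, S = boxE (8 * m * k + 4 * m) := ⟨_, rfl⟩
  obtain ⟨M, hM⟩ : ∃ M : ℝ, M = (m : ℝ) ^ (91/48 : ℝ) := ⟨_, rfl⟩
  have hM0 : 0 < M := by rw [hM]; positivity
  obtain ⟨t, ht⟩ : ∃ t : ℝ, t = a / 6 * M := ⟨_, rfl⟩
  rw [← hS, ← hM]
  have hsub : ∀ i < k, bo (ce m i) (4 * m) ⊆ S := by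
    intro i hi
    rw [hS]
    unfold bo boxE ce
    have h4 : ((i : ℤ) + 1) ≤ k := by exact_mod_cast hi
    have h5 : 8 * (m : ℤ) * (i + 1) ≤ 8 * (m : ℤ) * k :=
      mul_le_mul_of_nonneg_left h4 (by positivity)
    have h6 : (0:ℤ) ≤ 8 * (m : ℤ) * i := by positivity
    have h7 : (0:ℤ) ≤ 8 * (m : ℤ) * k := by positivity
    apply RE_subset <;> (push_cast; linarith)
  have g1 : ∀ i < k, κ ^ 4 ≤ Pr (fun _ => p) S (CA (ce m i) m (2 * m)) := by
    intro i hi
    apply pr_CA_ge hW hm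
    refine Finset.Subset.trans ?_ (hsub i hi)
    unfold bo
    apply RE_subset <;> (push_cast; omega)
  have g2 : ∀ i < k, θ ≤ Pr (fun _ => p) S (fun F => t ≤ XL (Db (ce m i) m) (3 * m) F) := by
    intro i hi
    have := hV p m (ce m i) S h0 h1 hm hAU harm3 (hsub i hi)
    rw [← hM, ← ht] at this
    exact this
  have g3 := pr_blocks h0 h1 (by positivity) hθ.le g1 g2 k le_rfl
  -- the crossing
  have g4 : κ * Real.exp (-(2 * L) * (((8 * m * k + 2 * m : ℕ) : ℝ) / m)) ≤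
      Pr (fun _ => p) S (LRc (-(2 * (m : ℤ))) (8 * (m : ℤ) * k) (-(m : ℤ)) m) := by
    rw [pr_LRc p (LRE_subset_RE.trans (by
      rw [hS]; unfold boxE
      have h7 : (0:ℤ) ≤ 8 * (m : ℤ) * k := by positivity
      apply RE_subset <;> (push_cast; linarith)))]
    have h5 := hh_exp (hW.anti (show m ≤ 4 * m by omega)) hm
      (show 1 ≤ 8 * m * k + 2 * m by omega)
    rw [← hL] at h5
    refine h5.trans ?_
    have h7 : (0:ℤ) ≤ 8 * (m : ℤ) * k := by positivity
    have h8 : (1:ℤ) ≤ m := by exact_mod_cast hm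
    apply hh_mono h0 h1
    · linarith
    · push_cast; linarith
    · linarith
  -- the arm of the origin
  have g5 : a / 3 * (m:ℝ) ^ (-(5/48) : ℝ) ≤ Pr (fun _ => p) S (LA (0, 0) (3 * m)) := by
    have h5 : bo (0, 0) (3 * m) ⊆ S := by
      refine Finset.Subset.trans ?_ (hsub 0 (by omega))
      unfold bo ce
      apply RE_subset <;> (push_cast; linarith)
    refine le_trans ?_ (pr_LA_ge h0 h1 h5)
    refine le_trans ?_ harm3
    push_cast
    rw [Real.mul_rpow (by norm_num) hm0.le]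
    have h3 : (1:ℝ) / 3 ≤ (3:ℝ) ^ (-(5/48) : ℝ) := by
      have : (3:ℝ) ^ (-1 : ℝ) ≤ (3:ℝ) ^ (-(5/48) : ℝ) :=
        Real.rpow_le_rpow_of_exponent_le (by norm_num) (by norm_num)
      rw [Real.rpow_neg_one] at this
      linarith
    have h5 : 0 ≤ a * (m:ℝ) ^ (-(5/48) : ℝ) := by positivity
    have h6 := mul_le_mul_of_nonneg_right h3 h5
    linarith
  have i1 : IncrE S (fun F : Finset Edg => ∀ i < k, Blo m t i F) :=
    fun F G h _ hF i hi => Blo_mono h (hF i hi)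
  have g6 := harris2 ok i1 (LRc_incr S (-(2 * (m : ℤ))) (8 * (m : ℤ) * k) (-(m : ℤ)) m)
    (by positivity) (by positivity) g3 g4
  have g7 := harris2 ok (S := S) (A := fun F => (∀ i < k, Blo m t i F) ∧
      LRc (-(2 * (m : ℤ))) (8 * (m : ℤ) * k) (-(m : ℤ)) m F) (B := LA (0, 0) (3 * m))
    (fun F G h _ hF => ⟨fun i hi => Blo_mono h (hF.1 i hi), hF.2.mono h⟩)
    (fun F G h _ hF => LA_inc _ _ F G h hF) (by positivity) (by positivity) g6 g5
  have g8 : Pr (fun _ => p) S (fun F => ((∀ i < k, Blo m t i F) ∧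
      LRc (-(2 * (m : ℤ))) (8 * (m : ℤ) * k) (-(m : ℤ)) m F) ∧ LA (0, 0) (3 * m) F) ≤
      Pr (fun _ => p) S (fun F => min (a * κ / 3) (a / 6) * k * M ≤
        ((cF (8 * m * k + 4 * m) F).card : ℝ)) := by
    apply Pr_mono ok
    intro F _ h
    have h5 := chain_det (K := 8 * m * k + 4 * m) hm hk (by omega) h.1.1 h.1.2 h.2
    refine le_trans ?_ h5
    rw [ht]
    have h6 : min (a * κ / 3) (a / 6) ≤ a / 6 := min_le_right _ _
    have h7 : 0 ≤ (k:ℝ) * M := by positivity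
    nlinarith
  refine le_trans ?_ (g7.trans g8)
  have e1 : ((8 * m * k + 2 * m : ℕ) : ℝ) / m = 8 * k + 2 := by
    push_cast
    field_simp
  rw [e1]
  have e2 : (κ ^ 4 * θ) ^ k = Real.exp (k * L') := by
    rw [hL', Real.exp_nat_mul, Real.exp_log (by positivity)]
  rw [e2]
  have h5 : Real.exp (-((20 * |L| + |L'| + 1) * k)) ≤
      Real.exp (k * L') * Real.exp (-(2 * L) * (8 * k + 2)) := by
    rw [← Real.exp_add]
    apply Real.exp_le_exp.mpr
    have h6 := neg_abs_le L'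
    have h7 := le_abs_self L
    have h8 : (k:ℝ) * (-|L'|) ≤ k * L' := mul_le_mul_of_nonneg_left h6 (by positivity)
    have h9 : (2 * (8 * (k:ℝ) + 2)) * L ≤ (2 * (8 * (k:ℝ) + 2)) * |L| :=
      mul_le_mul_of_nonneg_left h7 (by positivity)
    have h10 : 0 ≤ |L| := abs_nonneg L
    have h11 : |L| * (2 * (8 * (k:ℝ) + 2)) ≤ |L| * (20 * k) :=
      mul_le_mul_of_nonneg_left (by linarith) h10
    nlinarith
  have h6 : min (a * κ / 3) (a / 6) ≤ a * κ / 3 := min_le_left _ _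
  have hx : 0 < (m:ℝ) ^ (-(5/48) : ℝ) := by positivity
  calc min (a * κ / 3) (a / 6) * (m:ℝ) ^ (-(5/48) : ℝ) * Real.exp (-((20 * |L| + |L'| + 1) * k))
      ≤ (a * κ / 3) * (m:ℝ) ^ (-(5/48) : ℝ) *
        (Real.exp (k * L') * Real.exp (-(2 * L) * (8 * k + 2))) := by
        apply mul_le_mul _ h5 (Real.exp_pos _).le (by positivity)
        exact mul_le_mul_of_nonneg_right h6 hx.le
    _ = _ := by ring

end CS213
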