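import Pool.Agent.Run7.h871.CS.Goal
import Pool.Agent.Run7.h871.CS.Mom
import Pool.Agent.Run7.h213.CS.CHAIN

/-!
Lower bound for the cluster size law at and below the critical point
(part `S_LOWSUB` of the project CS of helper871).
-/

set_option autoImplicit false

namespace CS213

open Finset H974 H31K Pool.Agent.H160R2.CV Pool.Agent.H160R2.CV.Quad MeasureTheory T213 CS871
open Pool.Agent.W424.NC

theorem cF_sub {ω : sqLattice.edgeSet → Bool} (K : ℕ) (S : Finset Edg) :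
    (↑(cF K (FF S ω)) : Set Vtx) ⊆ cluster0 ω := by
  intro u hu
  rw [Finset.mem_coe, mem_cF] at hu
  exact tp_sub (S := S) (x := u) hu.2

/-- from a box to the infinite volume, at and below the critical point -/
theorem szFin_ge {p : unitInterval} (hp : (p:ℝ) ≤ 1/2) {n K : ℕ} {A : Finset Edg → Prop}
    (hA : ∀ F, A F → n ≤ (cF K F).card) :
    Pr (fun _ => (p:ℝ)) (boxE K) A ≤ szFin p n := by
  rw [← law_event p (boxE K) A]
  refine (inf_null hp).trans ?_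
  unfold szFin
  refine measureReal_mono ?_ (measure_ne_top _ _)
  rintro ω ⟨h1, h2⟩
  refine ⟨?_, h2⟩
  have h3 := hA _ h1
  have h4 := Set.ncard_le_ncard (cF_sub (ω := ω) K (boxE K)) h2
  rw [Set.ncard_coe_finset] at h4
  exact h3.trans h4

theorem lowsub_of (hch : S_CHAIN) : S_LOWSUB := by
  obtain ⟨κ, a, C, hκ, ha, hC, hG⟩ := nearG
  obtain ⟨A, hA, hup⟩ := armUp_sub
  obtain ⟨c0, C0, hc0, hC0, hchain⟩ := hch A a κ hA ha hκ
  refine ⟨c0 * ((2:ℝ) ^ (-(5/48) : ℝ) * Real.exp (-(C0 * (1 + 1 / c0)))),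
    C0 * (C ^ (91/48 : ℝ) / c0), by positivity, by positivity, ?_⟩
  intro p hp hp1 n hn
  have hn0 : (0:ℝ) < n := by exact_mod_cast hn
  have hn1 : (1:ℝ) ≤ n := by exact_mod_cast hn
  have hs0 : 0 ≤ 1/2 - (p:ℝ) := by linarith
  obtain ⟨x, hx⟩ : ∃ x : ℝ, x = (n:ℝ) ^ (48/91 : ℝ) := ⟨_, rfl⟩
  have hx1 : 1 ≤ x := by rw [hx]; exact Real.one_le_rpow hn1 (by norm_num)
  have hx0 : 0 < x := by linarith
  have hxn : x ^ (91/48 : ℝ) = n := by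
    rw [hx, ← Real.rpow_mul hn0.le]; norm_num
  obtain ⟨r, hr⟩ : ∃ r : ℕ, r = ⌈x⌉₊ := ⟨_, rfl⟩
  have hxr : x ≤ r := by rw [hr]; exact Nat.le_ceil x
  have hrx : (r:ℝ) ≤ 2 * x := by
    have : (r:ℝ) < x + 1 := by rw [hr]; exact Nat.ceil_lt_add_one hx0.le
    linarith
  have hr0 : (0:ℝ) < r := by linarith
  have hr1 : 1 ≤ r := by exact_mod_cast hr0
  obtain ⟨m, hm, hmr, hW, harm, hcase⟩ := hG p r hp hp1 hr1
  have hm0 : (0:ℝ) < m := by exact_mod_cast hm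
  have hmr' : (m:ℝ) ≤ r := by exact_mod_cast hmr
  have hM0 : 0 < (m:ℝ) ^ (91/48 : ℝ) := by positivity
  obtain ⟨y, hy⟩ : ∃ y : ℝ, y = (n:ℝ) / (c0 * (m:ℝ) ^ (91/48 : ℝ)) := ⟨_, rfl⟩
  have hy0 : 0 < y := by rw [hy]; positivity
  obtain ⟨k, hk⟩ : ∃ k : ℕ, k = ⌈y⌉₊ := ⟨_, rfl⟩
  have hyk : y ≤ k := by rw [hk]; exact Nat.le_ceil y
  have hky : (k:ℝ) ≤ y + 1 := by
    have : (k:ℝ) < y + 1 := by rw [hk]; exact Nat.ceil_lt_add_one hy0.le
    linarith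
  have hk0 : (0:ℝ) < k := by linarith
  have hk1 : 1 ≤ k := by exact_mod_cast hk0
  obtain ⟨H, hH⟩ : ∃ H : ℝ, H = (n:ℝ) * (1/2 - (p:ℝ)) ^ (91/36 : ℝ) := ⟨_, rfl⟩
  have hH0 : 0 ≤ H := by
    rw [hH]
    have : 0 ≤ (1/2 - (p:ℝ)) ^ (91/36 : ℝ) := Real.rpow_nonneg hs0 _
    positivity
  -- the bound for `y`
  have hyb : y ≤ 1 / c0 + C ^ (91/48 : ℝ) / c0 * H := by
    rcases hcase with h6 | h6
    · have h7 : y ≤ 1 / c0 := by
        rw [hy, div_le_div_iff₀ (by positivity) hc0, h6]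
        have h8 : (n:ℝ) ≤ (r:ℝ) ^ (91/48 : ℝ) := by
          rw [← hxn]
          exact Real.rpow_le_rpow hx0.le hxr (by norm_num)
        nlinarith
      have : 0 ≤ C ^ (91/48 : ℝ) / c0 * H := by positivity
      linarith
    · have ht0 : 0 ≤ (1/2 - (p:ℝ)) ^ (4/3 : ℝ) := Real.rpow_nonneg hs0 _
      have h7 : (1:ℝ) ≤ C ^ (91/48 : ℝ) * ((m:ℝ) ^ (91/48 : ℝ) * (1/2 - (p:ℝ)) ^ (91/36 : ℝ)) := by
        have h8 := Real.one_le_rpow h6 (z := (91/48 : ℝ)) (by norm_num)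
        rw [Real.mul_rpow hC.le (by positivity), Real.mul_rpow hm0.le ht0,
          ← Real.rpow_mul hs0] at h8
        have e : (4/3 : ℝ) * (91/48) = 91/36 := by norm_num
        rwa [e] at h8
      have h8 : y ≤ C ^ (91/48 : ℝ) / c0 * H := by
        rw [hy, hH, div_le_iff₀ (by positivity)]
        have e : C ^ (91/48 : ℝ) / c0 * ((n:ℝ) * (1/2 - (p:ℝ)) ^ (91/36 : ℝ)) *
            (c0 * (m:ℝ) ^ (91/48 : ℝ)) =
            n * (C ^ (91/48 : ℝ) * ((m:ℝ) ^ (91/48 : ℝ) * (1/2 - (p:ℝ)) ^ (91/36 : ℝ))) := by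
          field_simp
        rw [e]
        nlinarith
      have : 0 ≤ 1 / c0 := by positivity
      linarith
  obtain ⟨K, hK⟩ := hchain p m k hm hk1 hW (hup p m p.2.1 hp1) harm
  have hfin : Pr (fun _ => (p:ℝ)) (boxE K)
      (fun F => c0 * k * (m:ℝ) ^ (91/48 : ℝ) ≤ ((cF K F).card : ℝ)) ≤ szFin p n := by
    apply szFin_ge hp1
    intro F hF
    have h1 : (n:ℝ) ≤ c0 * k * (m:ℝ) ^ (91/48 : ℝ) := by
      have h2 : y * (c0 * (m:ℝ) ^ (91/48 : ℝ)) ≤ k * (c0 * (m:ℝ) ^ (91/48 : ℝ)) :=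
        mul_le_mul_of_nonneg_right hyk (by positivity)
      have h3 : y * (c0 * (m:ℝ) ^ (91/48 : ℝ)) = n := by
        rw [hy]; field_simp
      linarith
    exact_mod_cast h1.trans hF
  refine le_trans ?_ (hK.trans hfin)
  rw [← hH]
  have hmp : (2:ℝ) ^ (-(5/48) : ℝ) * (n:ℝ) ^ (-(5/91) : ℝ) ≤ (m:ℝ) ^ (-(5/48) : ℝ) := by
    have e1 : (n:ℝ) ^ (-(5/91) : ℝ) = x ^ (-(5/48) : ℝ) := by
      rw [hx, ← Real.rpow_mul hn0.le]; norm_num
    rw [e1, ← Real.mul_rpow (by norm_num) hx0.le]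
    exact Real.rpow_le_rpow_of_nonpos hm0 (hmr'.trans hrx) (by norm_num)
  have hex : Real.exp (-(C0 * (1 + 1 / c0))) * Real.exp (-(C0 * (C ^ (91/48 : ℝ) / c0) * H)) ≤
      Real.exp (-(C0 * k)) := by
    rw [← Real.exp_add]
    apply Real.exp_le_exp.mpr
    have h1 : C0 * k ≤ C0 * (1 + 1 / c0 + C ^ (91/48 : ℝ) / c0 * H) :=
      mul_le_mul_of_nonneg_left (by linarith) hC0.le
    linarith
  calc c0 * ((2:ℝ) ^ (-(5/48) : ℝ) * Real.exp (-(C0 * (1 + 1 / c0)))) * (n:ℝ) ^ (-(5/91) : ℝ) *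
        Real.exp (-(C0 * (C ^ (91/48 : ℝ) / c0) * H))
      = c0 * (((2:ℝ) ^ (-(5/48) : ℝ) * (n:ℝ) ^ (-(5/91) : ℝ)) *
        (Real.exp (-(C0 * (1 + 1 / c0))) * Real.exp (-(C0 * (C ^ (91/48 : ℝ) / c0) * H)))) := by
        ring
    _ ≤ c0 * ((m:ℝ) ^ (-(5/48) : ℝ) * Real.exp (-(C0 * k))) := by
        apply mul_le_mul_of_nonneg_left _ hc0.le
        exact mul_le_mul hmp hex (by positivity) (by positivity)
    _ = _ := by ring

/-- `S_LOWSUB` -/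
theorem lowsub : S_LOWSUB := lowsub_of (chain secu)

end CS213
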